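import Mathlib
import Pool.Agent.N251.GA.Leaves2
import Pool.Agent.N186.GA.NF

/-!
# Conjugate triples over the integers of `ℚ(√5)` and the classical abc conjecture
-/

set_option autoImplicit false

namespace Pool.Agent.N564.GASymK

open NumberField IsDedekindDomain Pool.Agent.N251.GA

/-! ### the arithmetic data of the integers -/

noncomputable def arZ (h : LeafZ) : Ar ℤ where
  ι := Unit
  fin := inferInstance
  ne := inferInstance
  σ := fun _ => Int.castRingHom ℂ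
  rad := radZ
  one_le_norm x hx := by
    rw [Finset.univ_unique, Finset.prod_singleton]
    exact h.1 x hx
  one_le_rad := h.2.1
  rad_le_norm x hx := by
    rw [Finset.univ_unique, Finset.prod_singleton]
    exact h.2.2.1 x hx
  rad_mul_le := h.2.2.2.1
  rad_mono := h.2.2.2.2.1
  idem := h.2.2.2.2.2

theorem radZ_neg (n : ℤ) : radZ (-n) = radZ n := by
  simp [radZ]

theorem prod_arZ (h : LeafZ) (f : (arZ h).ι → ℝ) : ∏ i, f i = f () := by
  show ∏ i : Unit, f i = f ()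
  rw [Finset.univ_unique, Finset.prod_singleton]

theorem norm_arZ (h : LeafZ) (i : (arZ h).ι) (x : ℤ) : ‖(arZ h).σ i x‖ = |(x : ℝ)| := by
  show ‖(x : ℂ)‖ = _
  rw [Complex.norm_intCast]

theorem abc_iff (h : LeafZ) : ABC (arZ h) (fun _ => True) ↔ AbcZ := by
  constructor
  · intro hA ε hε
    obtain ⟨κ, hκ, H⟩ := hA ε hε
    refine ⟨κ, hκ, fun a b c hab hc h0 => ?_⟩
    have h1 := H (a, b, -c) ⟨⟨hab, by simp only; linarith, by
      rintro rfl; simp at h0, by rintro rfl; simp at h0, by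
      intro h2
      simp only [neg_eq_zero] at h2
      rw [h2] at h0
      simp at h0⟩, trivial⟩
    rw [prod_arZ] at h1
    simp only [ht, norm_arZ, Int.cast_neg, abs_neg] at h1
    refine h1.trans (le_of_eq ?_)
    show radZ (a * b * -c) = _
    rw [mul_neg, radZ_neg]
  · intro hA ε hε
    obtain ⟨κ, hκ, H⟩ := hA ε hε
    refine ⟨κ, hκ, ?_⟩
    rintro ⟨a, b, c⟩ ⟨⟨hab, hs, ha, hb, hc⟩, -⟩
    simp only at hab hs ha hb hc
    have h1 := H a b (-c) hab (by linarith) (by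
      rw [mul_neg, neg_ne_zero]
      exact mul_ne_zero (mul_ne_zero ha hb) hc)
    rw [prod_arZ]
    simp only [ht, norm_arZ]
    rw [Int.cast_neg, abs_neg] at h1
    refine h1.trans (le_of_eq ?_)
    show _ = radZ (a * b * c)
    rw [mul_neg, radZ_neg]

/-! ### the field -/

theorem no_rat (c : ℚ) : c ^ 2 ≠ 5 := by
  intro h
  have h1 : IsSquare ((5 : ℕ) : ℚ) := ⟨c, by rw [← sq, h]; norm_num⟩
  rw [Rat.isSquare_natCast_iff] at h1
  obtain ⟨n, hn⟩ := h1
  have h2 : n < 3 := by nlinarith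
  interval_cases n <;> omega

theorem no_int {x y : ℤ} (h : x ^ 2 = 5 * y ^ 2) : y = 0 := by
  by_contra hy
  have hy' : (y : ℚ) ≠ 0 := by exact_mod_cast hy
  apply no_rat ((x : ℚ) / y)
  rw [div_pow, div_eq_iff (pow_ne_zero _ hy')]
  exact_mod_cast h

variable {K : Type} [Field K] [NumberField K]

theorem exists_uv (hfin : Module.finrank ℚ K = 2) {s : K} (hs : s ^ 2 = 5) (a : K) :
    ∃ u v : ℚ, a = algebraMap ℚ K u + algebraMap ℚ K v * s := by
  have hli : LinearIndependent ℚ ![(1 : K), s] := by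
    rw [LinearIndependent.pair_iff]
    intro p q hpq
    rw [Algebra.smul_def, Algebra.smul_def, mul_one] at hpq
    by_cases hq : q = 0
    · subst hq
      rw [map_zero, zero_mul, add_zero] at hpq
      exact ⟨(map_eq_zero_iff _ (algebraMap ℚ K).injective).mp hpq, rfl⟩
    · exfalso
      apply no_rat (-p / q)
      have hq' : algebraMap ℚ K q ≠ 0 := by
        rwa [Ne, map_eq_zero_iff _ (algebraMap ℚ K).injective]
      have h1 : s = algebraMap ℚ K (-p / q) := by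
        rw [map_div₀, map_neg, eq_div_iff hq']
        linear_combination hpq
      apply (algebraMap ℚ K).injective
      rw [map_pow, ← h1, hs, map_ofNat]
  have hspan := hli.span_eq_top_of_card_eq_finrank (by rw [hfin]; rfl)
  rw [Matrix.range_cons_cons_empty] at hspan
  have ha : a ∈ Submodule.span ℚ {(1 : K), s} := by rw [hspan]; trivial
  obtain ⟨u, v, huv⟩ := Submodule.mem_span_pair.mp ha
  refine ⟨u, v, ?_⟩
  rw [← huv, Algebra.smul_def, Algebra.smul_def, mul_one]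

theorem rat_int (a : 𝓞 K) (q : ℚ) (h : (a : K) = algebraMap ℚ K q) : ∃ n : ℤ, a = n := by
  have h1 : IsIntegral ℤ (algebraMap ℚ K q) := by
    rw [← h]
    exact RingOfIntegers.isIntegral_coe a
  have h2 : IsIntegral ℤ q := (isIntegral_algebraMap_iff (algebraMap ℚ K).injective).mp h1
  obtain ⟨n, hn⟩ := IsIntegrallyClosed.isIntegral_iff.mp h2
  refine ⟨n, ?_⟩
  apply RingOfIntegers.coe_injective
  refine (h.trans ?_)
  rw [← hn, map_intCast]
  simp

omit [NumberField K] in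
/-- the square root of five -/
theorem exists_r (h5 : ∃ s : K, s ^ 2 = 5) : ∃ r : 𝓞 K, r ^ 2 = 5 := by
  obtain ⟨s, hs⟩ := h5
  have h1 : IsIntegral ℤ s := by
    apply IsIntegral.of_pow (n := 2) (by norm_num)
    rw [hs]
    have : (5 : K) = algebraMap ℤ K 5 := by simp
    rw [this]
    exact isIntegral_algebraMap
  refine ⟨⟨s, h1⟩, ?_⟩
  apply RingOfIntegers.coe_injective
  rw [map_pow, map_ofNat]
  exact hs

theorem clear (hfin : Module.finrank ℚ K = 2) {r : 𝓞 K} (hr : r ^ 2 = 5) (a : 𝓞 K) :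
    ∃ m x y : ℤ, m ≠ 0 ∧ (m : 𝓞 K) * a = x + y * r := by
  have hr' : (r : K) ^ 2 = 5 := by
    have := congrArg (algebraMap (𝓞 K) K) hr
    rwa [map_pow, map_ofNat] at this
  obtain ⟨u, v, huv⟩ := exists_uv hfin hr' (a : K)
  refine ⟨u.den * v.den, u.num * v.den, v.num * u.den, ?_, ?_⟩
  · exact mul_ne_zero (by exact_mod_cast u.den_ne_zero) (by exact_mod_cast v.den_ne_zero)
  · apply RingOfIntegers.coe_injective
    have hu : algebraMap ℚ K u * (u.den : K) = (u.num : K) := by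
      have := congrArg (algebraMap ℚ K) (Rat.mul_den_eq_num u)
      rwa [map_mul, map_natCast, map_intCast] at this
    have hv : algebraMap ℚ K v * (v.den : K) = (v.num : K) := by
      have := congrArg (algebraMap ℚ K) (Rat.mul_den_eq_num v)
      rwa [map_mul, map_natCast, map_intCast] at this
    have e1 : algebraMap (𝓞 K) K (((((u.den : ℤ) * (v.den : ℤ) : ℤ)) : 𝓞 K) * a) =
        (u.den : K) * v.den * a := by
      rw [map_mul, map_intCast]; push_cast; ring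
    have e2 : algebraMap (𝓞 K) K ((((u.num * v.den : ℤ)) : 𝓞 K) +
        (((v.num * u.den : ℤ)) : 𝓞 K) * r) = (u.num : K) * v.den + v.num * u.den * r := by
      rw [map_add, map_mul, map_intCast, map_intCast]; push_cast; ring
    rw [e1, e2, huv, ← hu, ← hv]
    ring

theorem r_ne {r : 𝓞 K} (hr : r ^ 2 = 5) : r ≠ 0 := by
  rintro rfl
  rw [zero_pow two_ne_zero] at hr
  exact (by norm_num : (5 : 𝓞 K) ≠ 0) hr.symm

/-- the nontrivial endomorphism changes the sign of the square root -/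
theorem tau_r (hfin : Module.finrank ℚ K = 2) {r : 𝓞 K} (hr : r ^ 2 = 5) (τ : 𝓞 K →+* 𝓞 K)
    (hτ : τ ≠ RingHom.id (𝓞 K)) : τ r = -r := by
  have h1 : (τ r - r) * (τ r + r) = 0 := by
    have h2 : τ r ^ 2 = 5 := by rw [← map_pow, hr, map_ofNat]
    linear_combination h2 - hr
  rcases mul_eq_zero.mp h1 with h2 | h2
  · exfalso
    apply hτ
    apply RingHom.ext
    intro a
    obtain ⟨m, x, y, hm, hxy⟩ := clear hfin hr a
    have h3 := congrArg τ hxy
    rw [map_mul, map_add, map_mul, map_intCast, map_intCast, map_intCast, sub_eq_zero.mp h2,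
      ← hxy] at h3
    exact mul_left_cancel₀ (by exact_mod_cast hm) h3
  · linear_combination h2

/-- trace and difference -/
theorem exists_xy (hfin : Module.finrank ℚ K = 2) {r : 𝓞 K} (hr : r ^ 2 = 5) (τ : 𝓞 K →+* 𝓞 K)
    (hτ : τ ≠ RingHom.id (𝓞 K)) (a : 𝓞 K) :
    ∃ x y : ℤ, a + τ a = x ∧ a - τ a = y * r := by
  obtain ⟨m, x, y, hm, hxy⟩ := clear hfin hr a
  have hτr := tau_r hfin hr τ hτ
  have h3 := congrArg τ hxy
  rw [map_mul, map_add, map_mul, map_intCast, map_intCast, map_intCast, hτr] at h3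
  have hmK : (m : K) ≠ 0 := by exact_mod_cast hm
  have hmQ : (m : ℚ) ≠ 0 := by exact_mod_cast hm
  obtain ⟨X, hX⟩ := rat_int (a + τ a) (2 * x / m) (by
    rw [map_div₀, map_mul, map_intCast, map_intCast, map_ofNat, eq_div_iff hmK]
    have h4 : (a + τ a) * m = 2 * x := by linear_combination hxy + h3
    have h5 := congrArg (algebraMap (𝓞 K) K) h4
    rw [map_mul, map_mul, map_intCast, map_intCast, map_ofNat] at h5
    exact h5)
  obtain ⟨Z, hZ⟩ := rat_int ((a - τ a) * r) (10 * y / m) (by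
    rw [map_div₀, map_mul, map_intCast, map_intCast, map_ofNat, eq_div_iff hmK]
    have h4 : (a - τ a) * r * m = 10 * y := by
      linear_combination r * hxy - r * h3 + 2 * y * hr
    have h5 := congrArg (algebraMap (𝓞 K) K) h4
    rw [map_mul, map_mul (algebraMap (𝓞 K) K) 10, map_intCast, map_intCast, map_ofNat] at h5
    exact h5)
  obtain ⟨W, hW⟩ := rat_int ((a - τ a) ^ 2) (Z ^ 2 / 5) (by
    rw [map_div₀, map_pow, map_intCast, map_ofNat, eq_div_iff (by norm_num)]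
    have h4 : (a - τ a) ^ 2 * 5 = (Z : 𝓞 K) ^ 2 := by
      rw [← hZ]; linear_combination -(a - τ a) ^ 2 * hr
    have h5 := congrArg (algebraMap (𝓞 K) K) h4
    rw [map_mul, map_pow (algebraMap (𝓞 K) K) (Z : 𝓞 K), map_intCast, map_ofNat] at h5
    exact h5)
  have h5 : W * 5 = Z ^ 2 := by
    have h4 : (W : 𝓞 K) * 5 = (Z : 𝓞 K) ^ 2 := by
      rw [← hZ, ← hW]; linear_combination -(a - τ a) ^ 2 * hr
    exact_mod_cast h4
  have h6 : (5 : ℤ) ∣ Z := by
    have h7 : (5 : ℤ) ∣ Z ^ 2 := ⟨W, by rw [← h5]; ring⟩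
    exact (Int.prime_iff_natAbs_prime.mpr (by norm_num)).dvd_of_dvd_pow h7
  obtain ⟨Y, rfl⟩ := h6
  refine ⟨X, Y, hX, ?_⟩
  have h7 : r * (a - τ a - Y * r) = 0 := by
    push_cast at hZ
    linear_combination hZ - (Y : 𝓞 K) * hr
  have h8 := (mul_eq_zero.mp h7).resolve_left (r_ne hr)
  linear_combination h8

/-! ### embeddings -/

omit [NumberField K] in
theorem norm_r {r : 𝓞 K} (hr : r ^ 2 = 5) (φ : K →+* ℂ) : ‖φ r‖ ^ 2 = 5 := by
  have h1 : φ (r : K) ^ 2 = 5 := by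
    have h2 := congrArg (fun z : 𝓞 K => φ (z : K)) hr
    simp only [map_pow, map_ofNat] at h2
    exact h2
  rw [← norm_pow, h1]
  norm_num

theorem card_emb (hfin : Module.finrank ℚ K = 2) : Fintype.card (K →+* ℂ) = 2 := by
  rw [NumberField.Embeddings.card, hfin]

/-- the local size -/
noncomputable def ff (τ : 𝓞 K →+* 𝓞 K) (a : 𝓞 K) (φ : K →+* ℂ) : ℝ :=
  max (max ‖φ a‖ ‖φ (τ a)‖) ‖φ (a - τ a)‖

omit [NumberField K] in
theorem ff_nonneg (τ : 𝓞 K →+* 𝓞 K) (a : 𝓞 K) (φ : K →+* ℂ) : 0 ≤ ff τ a φ :=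
  (norm_nonneg _).trans (le_max_right _ _)

/-- a product over the embeddings -/
theorem prod_le_sq (hfin : Module.finrank ℚ K = 2) {f : (K →+* ℂ) → ℝ} {M : ℝ}
    (h0 : ∀ φ, 0 ≤ f φ) (h : ∀ φ, f φ ≤ M) : ∏ φ, f φ ≤ M ^ 2 := by
  rw [← card_emb hfin, ← Finset.card_univ, ← Finset.prod_const]
  exact Finset.prod_le_prod (fun φ _ => h0 φ) fun φ _ => h φ

theorem sq_le_prod (hfin : Module.finrank ℚ K = 2) {f : (K →+* ℂ) → ℝ} {M : ℝ}
    (h0 : 0 ≤ M) (h : ∀ φ, M ≤ f φ) : M ^ 2 ≤ ∏ φ, f φ := by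
  rw [← card_emb hfin, ← Finset.card_univ, ← Finset.prod_const]
  exact Finset.prod_le_prod (fun φ _ => h0) fun φ _ => h φ

theorem prod_int (hfin : Module.finrank ℚ K = 2) (n : ℤ) :
    ∏ φ : K →+* ℂ, ‖φ ((n : 𝓞 K) : K)‖ = |(n : ℝ)| ^ 2 := by
  rw [← card_emb hfin, ← Finset.card_univ, ← Finset.prod_const]
  refine Finset.prod_congr rfl fun φ _ => ?_
  have h1 : ((n : 𝓞 K) : K) = (n : K) := map_intCast (algebraMap (𝓞 K) K) n
  rw [h1, map_intCast, Complex.norm_intCast]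

theorem prod_r (hfin : Module.finrank ℚ K = 2) {r : 𝓞 K} (hr : r ^ 2 = 5) :
    ∏ φ : K →+* ℂ, ‖φ (r : K)‖ = 5 := by
  have h1 : ∀ φ : K →+* ℂ, ‖φ (r : K)‖ = Real.sqrt 5 := by
    intro φ
    rw [← norm_r hr φ, Real.sqrt_sq (norm_nonneg _)]
  rw [Finset.prod_congr rfl fun φ _ => h1 φ, Finset.prod_const, Finset.card_univ, card_emb hfin,
    Real.sq_sqrt (by norm_num)]

/-- the easy direction of the comparison of exponents -/
theorem rpow_aux {M ε : ℝ} (hM : 1 ≤ M) : M ^ (1 - ε) ≤ M ^ (1 - min ε 1) :=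
  Real.rpow_le_rpow_of_exponent_le hM (by linarith [min_le_left ε 1])

theorem sq_rpow {M θ : ℝ} (hM : 0 ≤ M) : (M ^ 2) ^ θ = (M ^ θ) ^ 2 := by
  rw [← Real.rpow_natCast M 2, ← Real.rpow_natCast (M ^ θ) 2, ← Real.rpow_mul hM,
    ← Real.rpow_mul hM, mul_comm]

/-! ### from the conjugate triples to the integers -/

theorem forward (hZ : LeafZ) (hRK : LeafRadKZ) (hfin : Module.finrank ℚ K = 2)
    (h5 : ∃ s : K, s ^ 2 = 5) (τ : 𝓞 K →+* 𝓞 K) (hτ : τ ≠ RingHom.id (𝓞 K)) (N : ℕ)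
    (hS : SymK τ N) : FormLow (arZ hZ) 5 (10 * N) := by
  obtain ⟨r, hr⟩ := exists_r h5
  have hτr := tau_r hfin hr τ hτ
  obtain ⟨-, -, -, -, hmono, -⟩ := Pool.Agent.N186.GANF.t K
  intro ε hε
  have hε' : 0 < min ε 1 := lt_min hε one_pos
  obtain ⟨κ, hκ, H⟩ := hS (min ε 1) hε'
  refine ⟨Real.sqrt κ, Real.sqrt_pos.mpr hκ, ?_⟩
  rintro ⟨s, t⟩ ⟨hst, hs5, ht0, hne, hN⟩
  simp only at hst hs5 ht0 hne hN
  rw [prod_arZ]
  simp only [norm_arZ]
  show _ ≤ radZ (t * (s ^ 2 - ((5 : ℤ) : ℤ) * t ^ 2))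
  have hs5' : IsCoprime s 5 := by simpa using hs5
  have hne' : s ^ 2 ≠ 5 * t ^ 2 := by simpa using hne
  obtain ⟨t', ht'⟩ := hN
  have ht'' : t = 10 * (N * t') := by rw [ht']; push_cast; ring
  set M : ℝ := max |(s : ℝ)| |(t : ℝ)| with hMdef
  have ht1 : (1 : ℝ) ≤ |(t : ℝ)| := by
    have : 1 ≤ |t| := Int.one_le_abs ht0
    exact_mod_cast this
  have hM1 : 1 ≤ M := ht1.trans (le_max_right _ _)
  refine (mul_le_mul_of_nonneg_left (rpow_aux hM1) (Real.sqrt_nonneg _)).trans ?_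
  -- the element
  set a : 𝓞 K := s + t * r with ha
  have hτa : τ a = s - t * r := by
    rw [ha, map_add, map_mul, map_intCast, map_intCast, hτr]; ring
  have hprod : a * τ a = ((s ^ 2 - 5 * t ^ 2 : ℤ) : 𝓞 K) := by
    rw [hτa, ha]; push_cast; linear_combination -(t : 𝓞 K) ^ 2 * hr
  have hdiff : a - τ a = 2 * t * r := by rw [hτa, ha]; ring
  have hsum : a + τ a = ((2 * s : ℤ) : 𝓞 K) := by rw [hτa, ha]; push_cast; ring
  have hn0 : s ^ 2 - 5 * t ^ 2 ≠ 0 := sub_ne_zero.mpr hne'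
  have hcop : IsCoprime a (τ a) := by
    have h1 : IsCoprime (2 * s) (s ^ 2 - 5 * t ^ 2) := by
      apply IsCoprime.mul_left
      · have h2 : IsCoprime (2 : ℤ) s := by
          have h3 : IsCoprime s (2 * (5 * (N * t'))) := by
            have : (2 * (5 * (N * t')) : ℤ) = t := by rw [ht'']; ring
            rw [this]; exact hst
          exact (IsCoprime.of_mul_right_left h3).symm
        have h3 : IsCoprime (2 : ℤ) (s ^ 2 + 2 * (-(5 * t * (5 * (N * t'))))) :=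
          (h2.pow_right).add_mul_left_right _
        have h4 : s ^ 2 - 5 * t ^ 2 = s ^ 2 + 2 * (-(5 * t * (5 * (N * t')))) := by
          have : t ^ 2 = t * (10 * (N * t')) := by rw [← ht'']; ring
          rw [this]; ring
        rw [h4]; exact h3
      · have h2 : IsCoprime s (-(5 * t ^ 2)) := (hs5'.mul_right hst.pow_right).neg_right
        have h3 : IsCoprime s (-(5 * t ^ 2) + s * s) := h2.add_mul_left_right _
        have h4 : s ^ 2 - 5 * t ^ 2 = -(5 * t ^ 2) + s * s := by ring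
        rw [h4]; exact h3
    have h2 : IsCoprime (a + τ a) (a * τ a) := by
      rw [hsum, hprod]
      exact h1.map (Int.castRingHom (𝓞 K))
    obtain ⟨u, v, huv⟩ := h2
    exact ⟨u, u + v * a, by linear_combination huv⟩
  have ha0 : a ≠ 0 := by
    intro h0
    rw [h0, zero_mul] at hprod
    exact hn0 (by exact_mod_cast hprod.symm)
  have hd0 : a - τ a ≠ 0 := by
    rw [hdiff]
    exact mul_ne_zero (mul_ne_zero two_ne_zero (by exact_mod_cast ht0)) (r_ne hr)
  have hNd : (N : 𝓞 K) ∣ a - τ a := by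
    rw [hdiff, ht'']
    exact ⟨2 * 10 * t' * r, by push_cast; ring⟩
  have h1 := H a hcop ha0 (fun h => hd0 (sub_eq_zero.mpr h)) hNd
  -- the radical
  have hn : t * (s ^ 2 - ((5 : ℤ) : ℤ) * t ^ 2) ≠ 0 := mul_ne_zero ht0 hn0
  set n : ℤ := t * (s ^ 2 - ((5 : ℤ) : ℤ) * t ^ 2) with hndef
  have h2 : radK (a * τ a * (a - τ a)) ≤ radK (n : 𝓞 K) := by
    apply hmono _ _ 3 (by exact_mod_cast hn)
    rw [hprod, hdiff, hndef]
    refine ⟨10 * r * ((N : 𝓞 K) * t') ^ 2 * (s ^ 2 - 5 * t ^ 2) ^ 2, ?_⟩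
    have h3 : (t : 𝓞 K) ^ 2 = 100 * ((N : 𝓞 K) * t') ^ 2 := by
      rw [ht'']; push_cast; ring
    push_cast
    have h4 : ((t : 𝓞 K) * (s ^ 2 - 5 * t ^ 2)) ^ 3 =
        (t : 𝓞 K) ^ 2 * t * (s ^ 2 - 5 * t ^ 2) ^ 3 := by ring
    rw [h4]
    nth_rewrite 1 [h3]
    linear_combination (-20 * ((N : 𝓞 K) * t') ^ 2 * t * (s ^ 2 - 5 * t ^ 2) ^ 3) * hr
  have h3 : radK (n : 𝓞 K) ≤ radZ n ^ 2 := (hRK K hfin h5 n hn).1
  -- the size
  have h4 : M ^ 2 ≤ ∏ φ : K →+* ℂ, ff τ a φ := by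
    apply sq_le_prod hfin (by linarith)
    intro φ
    have e0 : ‖φ (a : K)‖ ≤ ff τ a φ := (le_max_left _ _).trans (le_max_left _ _)
    have e1 : ‖φ (τ a : K)‖ ≤ ff τ a φ := (le_max_right _ _).trans (le_max_left _ _)
    have e2 : ‖φ ((a - τ a : 𝓞 K) : K)‖ ≤ ff τ a φ := le_max_right _ _
    have e3 : φ (a : K) + φ (τ a : K) = 2 * (s : ℂ) := by
      have := congrArg (fun z : 𝓞 K => φ (z : K)) hsum
      simp only [map_add, map_intCast] at this
      rw [this]; push_cast; ring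
    have e4 : φ ((a - τ a : 𝓞 K) : K) = 2 * (t : ℂ) * φ (r : K) := by
      rw [hdiff]
      simp only [map_mul, map_intCast, map_ofNat]
    have e5 := norm_r hr φ
    have e6 : 1 ≤ ‖φ (r : K)‖ := by nlinarith [norm_nonneg (φ (r : K))]
    apply max_le
    · have e7 : ‖φ (a : K) + φ (τ a : K)‖ ≤ ‖φ (a : K)‖ + ‖φ (τ a : K)‖ := norm_add_le _ _
      rw [e3, norm_mul, Complex.norm_intCast, Complex.norm_ofNat] at e7
      linarith
    · rw [e4, norm_mul, norm_mul, Complex.norm_intCast, Complex.norm_ofNat] at e2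
      have e7 : |(t : ℝ)| ≤ |(t : ℝ)| * ‖φ (r : K)‖ := le_mul_of_one_le_right (abs_nonneg _) e6
      nlinarith [abs_nonneg (t : ℝ)]
  have hθ : 0 ≤ 1 - min ε 1 := by linarith [min_le_right ε 1]
  have h5 : κ * (M ^ (1 - min ε 1)) ^ 2 ≤ radZ n ^ 2 := by
    rw [← sq_rpow (by linarith)]
    refine le_trans (mul_le_mul_of_nonneg_left (Real.rpow_le_rpow (by positivity) h4 hθ) hκ.le) ?_
    exact h1.trans (h2.trans h3)
  have h6 : (Real.sqrt κ * M ^ (1 - min ε 1)) ^ 2 ≤ radZ n ^ 2 := by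
    rw [mul_pow, Real.sq_sqrt hκ.le]; exact h5
  have h7 : 0 ≤ radZ n := le_trans zero_le_one (hZ.2.1 n)
  exact (abs_le_of_sq_le_sq' h6 h7).2

/-! ### from the integers to the conjugate triples -/

theorem backward (hZ : LeafZ) (hRK : LeafRadKZ) (hfin : Module.finrank ℚ K = 2)
    (h5 : ∃ s : K, s ^ 2 = 5) (τ : 𝓞 K →+* 𝓞 K) (hτ : τ ≠ RingHom.id (𝓞 K)) (N : ℕ)
    (hF : FormLow (arZ hZ) 5 1) : SymK τ N := by
  obtain ⟨r, hr⟩ := exists_r h5
  have hτr := tau_r hfin hr τ hτ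
  obtain ⟨hn1, hr1, hrn, hmul, hmono, -⟩ := Pool.Agent.N186.GANF.t K
  intro ε hε
  have hε' : 0 < min ε 1 := lt_min hε one_pos
  have hθ : 0 ≤ 1 - min ε 1 := by linarith [min_le_right ε 1]
  have hθ1 : 1 - min ε 1 ≤ 1 := by linarith
  obtain ⟨κ, hκ, H⟩ := hF (min ε 1) hε'
  refine ⟨κ ^ 2 / 720, by positivity, ?_⟩
  intro a hcop ha0 hne _
  obtain ⟨x, y, hx, hy⟩ := exists_xy hfin hr τ hτ a
  have h2a : 2 * a = x + y * r := by linear_combination hx + hy
  have h2τ : 2 * τ a = x - y * r := by linear_combination hx - hy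
  have hy0 : y ≠ 0 := by
    rintro rfl
    apply hne
    rw [Int.cast_zero, zero_mul] at hy
    exact sub_eq_zero.mp hy
  have hxy : x ^ 2 - 5 * y ^ 2 ≠ 0 := by
    intro h0
    exact hy0 (no_int (sub_eq_zero.mp h0))
  have h4 : 4 * (a * τ a) = ((x ^ 2 - 5 * y ^ 2 : ℤ) : 𝓞 K) := by
    push_cast
    linear_combination (2 * τ a) * h2a + (x + y * r) * h2τ - (y : 𝓞 K) ^ 2 * hr
  have hτ0 : τ a ≠ 0 := by
    intro h0
    rw [h0, mul_zero, mul_zero] at h4
    exact hxy (by exact_mod_cast h4.symm)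
  obtain ⟨u, v, huv⟩ := hcop
  -- the greatest common divisor
  obtain ⟨g, s, t, hg0, hst, hxs, hyt⟩ : ∃ g s t : ℤ, g ≠ 0 ∧ IsCoprime s t ∧ x = g * s ∧
      y = g * t := by
    have hg : (Int.gcd x y : ℤ) ≠ 0 := by
      intro h0
      exact hy0 ((Int.gcd_eq_zero_iff.mp (by exact_mod_cast h0)).2)
    obtain ⟨s, hs⟩ := Int.gcd_dvd_left (a := x) (b := y)
    obtain ⟨t, ht⟩ := Int.gcd_dvd_right (a := x) (b := y)
    refine ⟨Int.gcd x y, s, t, hg, ?_, hs, ht⟩
    obtain ⟨c, d, hcd⟩ := (Int.gcd_dvd_iff (a := x) (b := y) (n := Int.gcd x y)).mp dvd_rfl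
    refine ⟨c, d, ?_⟩
    apply mul_left_cancel₀ hg
    have h1 : (Int.gcd x y : ℤ) * (c * s + d * t) =
        (Int.gcd x y : ℤ) * s * c + (Int.gcd x y : ℤ) * t * d := by ring
    rw [h1, ← hs, ← ht, mul_one]
    exact hcd.symm
  have ht0 : t ≠ 0 := by
    rintro rfl
    rw [mul_zero] at hyt
    exact hy0 hyt
  have hg2 : |(g : ℝ)| ≤ 2 := by
    have h1 : (2 : 𝓞 K) = g * (u * (s + t * r) + v * (s - t * r)) := by
      have e1 : (x : 𝓞 K) = g * s := by rw [hxs]; push_cast; ring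
      have e2 : (y : 𝓞 K) = g * t := by rw [hyt]; push_cast; ring
      rw [e1, e2] at h2a h2τ
      linear_combination -2 * huv + u * h2a + v * h2τ
    have hz0 : u * (s + t * r) + v * (s - t * r) ≠ 0 := by
      intro h0
      rw [h0, mul_zero] at h1
      exact two_ne_zero h1
    set z := u * (s + t * r) + v * (s - t * r) with hz
    have h3 := prod_int hfin 2
    have h4 : (((2 : ℤ) : 𝓞 K)) = g * z := by rw [← h1]; norm_num
    rw [h4] at h3
    simp only [map_mul, norm_mul, Finset.prod_mul_distrib] at h3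
    rw [prod_int hfin g] at h3
    have h5 := hn1 z hz0
    have h6 : |(g : ℝ)| ^ 2 ≤ 2 ^ 2 := by
      have h7 : |((2 : ℤ) : ℝ)| ^ 2 = 2 ^ 2 := by norm_num
      rw [← h7, ← h3]
      exact le_mul_of_one_le_right (by positivity) h5
    exact (abs_le_of_sq_le_sq' h6 (by norm_num)).2
  have hs5 : IsCoprime s 5 := by
    by_contra hnc
    have h5s : (5 : ℤ) ∣ s := by
      have hp : Prime (5 : ℤ) := Int.prime_iff_natAbs_prime.mpr (by norm_num)
      by_contra h
      exact hnc ((hp.coprime_iff_not_dvd).mpr h).symm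
    obtain ⟨w, hw⟩ := h5s
    have h1 : (2 : 𝓞 K) = r * (u * (g * w * r + y) + v * (g * w * r - y)) := by
      have e1 : (x : 𝓞 K) = r ^ 2 * (g * w) := by rw [hxs, hw, hr]; push_cast; ring
      rw [e1] at h2a h2τ
      linear_combination -2 * huv + u * h2a + v * h2τ
    set z := u * (g * w * r + y) + v * (g * w * r - y) with hz
    have hz0 : z ≠ 0 := by
      intro h0
      rw [h0, mul_zero] at h1
      exact two_ne_zero h1
    have h3 := prod_int hfin 2
    have h4 : (((2 : ℤ) : 𝓞 K)) = r * z := by rw [← h1]; norm_num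
    rw [h4] at h3
    simp only [map_mul, norm_mul, Finset.prod_mul_distrib] at h3
    rw [prod_r hfin hr] at h3
    have h5 := hn1 z hz0
    norm_num at h3
    linarith
  have hst5 : s ^ 2 ≠ 5 * t ^ 2 := fun h => ht0 (no_int h)
  have h1 := H (s, t) ⟨hst, by simpa using hs5, ht0, by simpa using hst5, by simp⟩
  rw [prod_arZ] at h1
  simp only [norm_arZ] at h1
  have h1' : κ * (max |(s : ℝ)| |(t : ℝ)|) ^ (1 - min ε 1) ≤ radZ (t * (s ^ 2 - 5 * t ^ 2)) := h1
  clear h1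
  set M : ℝ := max |(s : ℝ)| |(t : ℝ)| with hMdef
  have ht1 : (1 : ℝ) ≤ |(t : ℝ)| := by
    have : 1 ≤ |t| := Int.one_le_abs ht0
    exact_mod_cast this
  have hM1 : 1 ≤ M := ht1.trans (le_max_right _ _)
  -- the radicals
  have hd0 : a - τ a ≠ 0 := sub_ne_zero.mpr hne
  have hA0 : a * τ a * (a - τ a) ≠ 0 := mul_ne_zero (mul_ne_zero ha0 hτ0) hd0
  set n : ℤ := t * (s ^ 2 - 5 * t ^ 2) with hndef
  have hn0 : n ≠ 0 := mul_ne_zero ht0 (sub_ne_zero.mpr hst5)
  have h2 : radZ n ^ 2 ≤ 5 * radK (n : 𝓞 K) := (hRK K hfin h5 n hn0).2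
  have h3 : radK (n : 𝓞 K) ≤ radK (2 * (a * τ a * (a - τ a))) := by
    apply hmono _ _ 2 (mul_ne_zero two_ne_zero hA0)
    have e1 : (n : 𝓞 K) ∣ 4 * y * (a * τ a) := by
      refine ⟨(g : 𝓞 K) ^ 3, ?_⟩
      have e2 : 4 * (y : 𝓞 K) * (a * τ a) = y * ((x ^ 2 - 5 * y ^ 2 : ℤ) : 𝓞 K) := by
        rw [← h4]; ring
      rw [e2, hndef, hxs, hyt]
      push_cast; ring
    refine e1.trans ?_
    rw [hy]
    refine ⟨5 * y * (a * τ a), ?_⟩
    linear_combination (4 * (a * τ a) ^ 2 * (y : 𝓞 K) ^ 2) * hr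
  have h6 : radK (2 * (a * τ a * (a - τ a))) ≤ 4 * radK (a * τ a * (a - τ a)) := by
    refine (hmul 2 _ two_ne_zero hA0).trans ?_
    refine mul_le_mul_of_nonneg_right ?_ (zero_le_one.trans (hr1 _))
    refine (hrn 2 two_ne_zero).trans ?_
    have e1 := prod_int hfin 2
    have e2 : (((2 : ℤ) : 𝓞 K)) = 2 := by norm_num
    rw [e2] at e1
    rw [e1]; norm_num
  have h7 : radZ n ^ 2 ≤ 20 * radK (a * τ a * (a - τ a)) := by linarith
  -- the sizes
  have h8 : ∏ φ : K →+* ℂ, ff τ a φ ≤ (6 * M) ^ 2 := by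
    apply prod_le_sq hfin (ff_nonneg τ a)
    intro φ
    have e5 := norm_r hr φ
    have e6 : ‖φ (r : K)‖ ≤ 3 := by nlinarith [norm_nonneg (φ (r : K))]
    have ex : |(x : ℝ)| ≤ 2 * M := by
      rw [hxs]; push_cast; rw [abs_mul]
      exact mul_le_mul hg2 (le_max_left _ _) (abs_nonneg _) (by norm_num)
    have ey : |(y : ℝ)| ≤ 2 * M := by
      rw [hyt]; push_cast; rw [abs_mul]
      exact mul_le_mul hg2 (le_max_right _ _) (abs_nonneg _) (by norm_num)
    have eyr : |(y : ℝ)| * ‖φ (r : K)‖ ≤ 2 * M * 3 :=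
      mul_le_mul ey e6 (norm_nonneg _) (by linarith)
    have ea : ‖φ (a : K)‖ ≤ 4 * M := by
      have h9 := congrArg (fun z : 𝓞 K => ‖φ (z : K)‖) h2a
      simp only [map_add, map_mul, map_intCast, map_ofNat, norm_mul, Complex.norm_ofNat] at h9
      have h10 := norm_add_le ((x : ℂ)) ((y : ℂ) * φ (r : K))
      rw [norm_mul, Complex.norm_intCast, Complex.norm_intCast] at h10
      linarith
    have eτ : ‖φ (τ a : K)‖ ≤ 4 * M := by
      have h9 := congrArg (fun z : 𝓞 K => ‖φ (z : K)‖) h2τ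
      simp only [map_sub, map_mul, map_intCast, map_ofNat, norm_mul, Complex.norm_ofNat] at h9
      have h10 := norm_sub_le ((x : ℂ)) ((y : ℂ) * φ (r : K))
      rw [norm_mul, Complex.norm_intCast, Complex.norm_intCast] at h10
      linarith
    have ed : ‖φ ((a - τ a : 𝓞 K) : K)‖ ≤ 6 * M := by
      rw [hy]
      simp only [map_mul, map_intCast, norm_mul, Complex.norm_intCast]
      linarith
    exact max_le (max_le (by linarith) (by linarith)) ed
  have h9 : 1 ≤ ∏ φ : K →+* ℂ, ff τ a φ := by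
    refine (hn1 a ha0).trans ?_
    exact Finset.prod_le_prod (fun φ _ => norm_nonneg _) fun φ _ =>
      (le_max_left _ _).trans (le_max_left _ _)
  have h10 : (∏ φ : K →+* ℂ, ff τ a φ) ^ (1 - ε) ≤ 36 * (M ^ (1 - min ε 1)) ^ 2 := by
    refine (rpow_aux h9).trans ?_
    refine (Real.rpow_le_rpow (by linarith) h8 hθ).trans ?_
    rw [sq_rpow (by linarith), Real.mul_rpow (by norm_num) (by linarith), mul_pow]
    refine mul_le_mul_of_nonneg_right ?_ (by positivity)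
    have e1 : (6 : ℝ) ^ (1 - min ε 1) ≤ 6 := by
      calc (6 : ℝ) ^ (1 - min ε 1) ≤ (6 : ℝ) ^ (1 : ℝ) :=
            Real.rpow_le_rpow_of_exponent_le (by norm_num) hθ1
        _ = 6 := Real.rpow_one _
    have e2 : (0 : ℝ) ≤ (6 : ℝ) ^ (1 - min ε 1) := by positivity
    nlinarith
  have h11 : κ ^ 2 * (M ^ (1 - min ε 1)) ^ 2 ≤ radZ n ^ 2 := by
    rw [← mul_pow]
    have e2 : (0 : ℝ) ≤ κ * M ^ (1 - min ε 1) := by positivity
    exact pow_le_pow_left₀ e2 h1' 2
  show κ ^ 2 / 720 * (∏ φ : K →+* ℂ, ff τ a φ) ^ (1 - ε) ≤ _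
  calc κ ^ 2 / 720 * (∏ φ : K →+* ℂ, ff τ a φ) ^ (1 - ε)
      ≤ κ ^ 2 / 720 * (36 * (M ^ (1 - min ε 1)) ^ 2) :=
        mul_le_mul_of_nonneg_left h10 (by positivity)
    _ = κ ^ 2 * (M ^ (1 - min ε 1)) ^ 2 / 20 := by ring
    _ ≤ radK (a * τ a * (a - τ a)) := by linarith

theorem t : LeafSymK := by
  intro hZ hS5 hFwd hRK K _ _ hfin h5 τ hτ N hN
  constructor
  · intro hS
    rw [← abc_iff hZ]
    exact hS5 ℤ (arZ hZ) (10 * N) (by omega) (forward hZ hRK hfin h5 τ hτ N hS)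
  · intro hA
    rw [← abc_iff hZ] at hA
    exact backward hZ hRK hfin h5 τ hτ N (hFwd ℤ (arZ hZ) 5 1 (by norm_num) hA)

end Pool.Agent.N564.GASymK
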